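import Pool.Agent.H5.Dem.Stmts

/-!
# Module CHI: `χ` is characterised on subgroups of index 2
-/

set_option autoImplicit false

namespace Pool.Agent.H5.Dem

/-- Module CHI. -/
theorem chi (hE : EULStmt) : CHIStmt := by
  intro G _ _ x y z hG χ hχ H hH hi θ hθ
  have := hG.proP.topGroup
  set ρ : H →* Au (ZMod 8) := (DistribMulAction.toModuleAut ℤ (ZMod 8) (S := (ZMod 8)ˣ)).comp θ
    with hρ
  have hρa : ∀ (u : H) (m : ZMod 8), ρ u m = ((θ u : (ZMod 8)ˣ) : ZMod 8) * m := fun u m => rfl
  have hρo : IsOpen (ρ.ker : Set H) := by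
    refine Subgroup.isOpen_mono (H₁ := θ.ker) ?_ hθ
    intro u hu
    have h1 : θ u = 1 := hu
    change ρ u = 1
    apply LinearEquiv.ext
    intro m
    rw [hρa, h1]
    simp
  have h8 : ∀ m : ZMod 8, 8 • m = 0 := by decide
  rw [hE G x y z hG χ hχ H hH (ZMod 8) ρ h8 hρo, hi]
  have hc : Nat.card (ZMod 8) = 8 := by simp
  rw [hc]
  have hcard : Nat.card (AddChar (ZMod 8) ℂ) = 8 := by
    rw [Nat.card_eq_fintype_card, AddChar.card_eq, ZMod.card]
  have hJ : Nat.card (JJ ρ (χ.comp H.subtype)) = 8 ↔ θ = χ.comp H.subtype := by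
    constructor
    · intro h
      have hu : JJ ρ (χ.comp H.subtype) = Set.univ := by
        refine Set.eq_univ_of_forall ?_
        by_contra hne
        push Not at hne
        obtain ⟨ψ, hψ⟩ := hne
        have hlt : (JJ ρ (χ.comp H.subtype)).ncard < (Set.univ : Set (AddChar (ZMod 8) ℂ)).ncard :=
          Set.ncard_lt_ncard ⟨Set.subset_univ _, fun hs => hψ (hs (Set.mem_univ ψ))⟩
        rw [Set.ncard_univ, hcard] at hlt
        rw [Nat.card_coe_set_eq] at h
        omega
      ext u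
      have hall : ∀ ψ : AddChar (ZMod 8) ℂ, ψ ((θ u : ZMod 8) - (χ u : ZMod 8)) = 1 := by
        intro ψ
        have hψ : ψ ∈ JJ ρ (χ.comp H.subtype) := by rw [hu]; trivial
        have h1 := hψ u 1
        rw [hρa, mul_one, nsmul_eq_mul, mul_one, ZMod.natCast_val, ZMod.cast_id', id] at h1
        rw [AddChar.map_sub_eq_div, h1]
        exact div_self (ψ.val_isUnit _).ne_zero
      have h0 : (θ u : ZMod 8) - (χ u : ZMod 8) = 0 := AddChar.forall_apply_eq_zero.1 hall
      exact sub_eq_zero.1 h0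
    · intro h
      have hu : JJ ρ (χ.comp H.subtype) = Set.univ := by
        refine Set.eq_univ_of_forall ?_
        intro ψ u m
        rw [hρa, nsmul_eq_mul, ZMod.natCast_val, ZMod.cast_id', id, h]
      rw [hu, Nat.card_coe_set_eq, Set.ncard_univ, hcard]
  rw [← hJ]
  omega

end Pool.Agent.H5.Dem
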