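import Pool.Agent.H5.Dem.Stmts

/-!
# Module DEMU: the group is a Demushkin group with `d(G) = 3`
-/

set_option autoImplicit false

namespace Pool.Agent.H5.Dem

namespace DEMUaux

section general

variable {G : Type} [Group G] [TopologicalSpace G] {x y z : G}

theorem eq_top (hG : IsG G x y z) (S : Subgroup G) (hS : IsClosed (S : Set G)) (hx : x ∈ S)
    (hy : y ∈ S) (hz : z ∈ S) : S = ⊤ := by
  have h1 : Subgroup.closure {x, y, z} ≤ S := by
    rw [Subgroup.closure_le]
    rintro g (rfl | rfl | rfl) <;> assumption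
  have h2 : closure (Subgroup.closure {x, y, z} : Set G) ⊆ S := closure_minimal h1 hS
  rw [hG.dense] at h2
  exact (Subgroup.eq_top_iff' S).2 fun g => h2 (Set.mem_univ g)

theorem hom_ext (hG : IsG G x y z) {E : Type} [Group E] (f k : G →* E)
    (hf : IsOpen (f.ker : Set G)) (hk : IsOpen (k.ker : Set G)) (hx : f x = k x)
    (hy : f y = k y) (hz : f z = k z) : f = k := by
  have := hG.proP.topGroup
  have ho : IsOpen ((f.eqLocus k : Subgroup G) : Set G) := by
    refine Subgroup.isOpen_mono (H₁ := f.ker ⊓ k.ker) ?_ (hf.inter hk)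
    rintro g ⟨h1, h2⟩
    have h1' : f g = 1 := h1
    have h2' : k g = 1 := h2
    change f g = k g
    rw [h1', h2']
  have htop := eq_top hG (f.eqLocus k) (Subgroup.isClosed_of_isOpen _ ho) hx hy hz
  ext g
  have : g ∈ f.eqLocus k := by rw [htop]; trivial
  exact this

theorem locConst [IsTopologicalGroup G] {E : Type} [Group E] (f : G →* E)
    (hf : IsOpen (f.ker : Set G)) : IsLocallyConstant f := by
  rw [IsLocallyConstant.iff_exists_open]
  intro g
  refine ⟨(fun h => g⁻¹ * h) ⁻¹' (f.ker : Set G), hf.preimage (continuous_const_mul _), ?_, ?_⟩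
  · simp
  · intro h hh
    have h1 : f (g⁻¹ * h) = 1 := hh
    rw [map_mul, map_inv, inv_mul_eq_one] at h1
    exact h1.symm

end general

/-- The set underlying an extension of `Q` by `F_2`. -/
structure Ex (Q : Type) where
  /-- first component -/
  s : ZMod 2
  /-- second component -/
  g : Q

theorem Ex.ext' {Q : Type} {a b : Ex Q} (h : a.s = b.s) (h' : a.g = b.g) : a = b := by
  cases a; cases b; cases h; cases h'; rfl

/-- The extension group. -/
@[reducible] def exGroup {Q : Type} [Group Q] (c : Q → Q → ZMod 2)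
    (hc : ∀ g h k, c h k + c g (h * k) = c (g * h) k + c g h) : Group (Ex Q) :=
  letI : Mul (Ex Q) := ⟨fun a b => ⟨a.s + b.s + c a.g b.g, a.g * b.g⟩⟩
  letI : Inv (Ex Q) := ⟨fun a => ⟨a.s + c a.g⁻¹ a.g + c 1 1, a.g⁻¹⟩⟩
  letI : One (Ex Q) := ⟨⟨c 1 1, 1⟩⟩
  Group.ofLeftAxioms
    (by
      intro a b d
      have h := hc a.g b.g d.g
      refine Ex.ext' ?_ (mul_assoc _ _ _)
      change a.s + b.s + c a.g b.g + d.s + c (a.g * b.g) d.g =
        a.s + (b.s + d.s + c b.g d.g) + c a.g (b.g * d.g)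
      linear_combination -h)
    (by
      intro a
      have h := hc 1 1 a.g
      rw [one_mul, one_mul] at h
      refine Ex.ext' ?_ (one_mul _)
      change c 1 1 + a.s + c 1 a.g = a.s
      have h2 : (2 : ZMod 2) = 0 := by decide
      linear_combination h + c 1 1 * h2)
    (by
      intro a
      refine Ex.ext' ?_ (inv_mul_cancel _)
      change a.s + c a.g⁻¹ a.g + c 1 1 + a.s + c a.g⁻¹ a.g = c 1 1
      have h2 : (2 : ZMod 2) = 0 := by decide
      linear_combination (a.s + c a.g⁻¹ a.g) * h2)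

/-- The invariant of a cocycle. -/
def lam {G : Type} [Group G] (x y z : G) (c : G × G → ZMod 2) : ZMod 2 :=
  c (y, z * (x * (x * (y * (y * y))))) + c (z, x * (x * (y * (y * y)))) +
    c (x, x * (y * (y * y))) + c (x, y * (y * y)) + c (y, y * y) + c (y, y)

theorem rel_eq' {E : Type} [Group E] (a b c : E) :
    a ^ 2 * b ^ 4 * (b⁻¹ * c⁻¹ * b * c) = a * (a * (b * (b * b))) * (c⁻¹ * (b * c)) := by
  simp only [pow_succ, pow_zero, one_mul, mul_assoc, mul_inv_cancel_left]

theorem rel_iff {E : Type} [Group E] (a b c : E) :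
    rel a b c = 1 ↔ b * (c * (a * (a * (b * (b * b))))) = c := by
  unfold rel
  rw [rel_eq']
  generalize a * (a * (b * (b * b))) = t
  constructor
  · intro h
    have h1 : t = (c⁻¹ * (b * c))⁻¹ := eq_inv_of_mul_eq_one_left h
    rw [h1]
    simp [mul_assoc]
  · intro h
    have h1 : t = c⁻¹ * (b⁻¹ * c) := by
      rw [eq_inv_mul_iff_mul_eq, eq_inv_mul_iff_mul_eq]
      exact h
    rw [h1]
    simp [mul_assoc]

section cocycle

variable {G : Type} [Group G] [TopologicalSpace G] {x y z : G}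

theorem exists_normal (hG : IsProP 2 G) (c : G × G → ZMod 2) (hc : IsLocallyConstant c) :
    ∃ N : Subgroup G, N.Normal ∧ IsOpen (N : Set G) ∧
      ∀ g h, ∀ n ∈ N, ∀ m ∈ N, c (g * n, h * m) = c (g, h) := by
  have := hG.topGroup
  have := hG.compact
  have := hG.hausdorff
  have := hG.disconnected
  have hcc : Continuous c := hc.continuous
  let W : Set ((G × G) × (G × G)) := {q | c (q.1.1 * q.2.1, q.1.2 * q.2.2) = c (q.1.1, q.1.2)}
  have hW : IsOpen W := by
    have h1 : Continuous fun q : (G × G) × (G × G) =>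
        (c (q.1.1 * q.2.1, q.1.2 * q.2.2), c (q.1.1, q.1.2)) := by
      refine Continuous.prodMk (hcc.comp ?_) (hcc.comp ?_) <;> fun_prop
    exact (isOpen_discrete {p : ZMod 2 × ZMod 2 | p.1 = p.2}).preimage h1
  have hsub : (Set.univ : Set (G × G)) ×ˢ ({(1, 1)} : Set (G × G)) ⊆ W := by
    rintro ⟨⟨g, h⟩, ⟨n, m⟩⟩ ⟨-, hq⟩
    simp only [Set.mem_singleton_iff, Prod.mk.injEq] at hq
    obtain ⟨rfl, rfl⟩ := hq
    simp [W]
  obtain ⟨u, v, -, hv, hu, hv1, huv⟩ :=
    generalized_tube_lemma isCompact_univ isCompact_singleton hW hsub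
  have hv' : IsOpen ({n : G | (n, (1 : G)) ∈ v} ∩ {n : G | ((1 : G), n) ∈ v}) := by
    exact (hv.preimage (by fun_prop)).inter (hv.preimage (by fun_prop))
  have hvn : v ∈ nhds ((1 : G), (1 : G)) := hv.mem_nhds (hv1 rfl)
  rw [mem_nhds_prod_iff'] at hvn
  obtain ⟨u1, v1, hu1, h1u, hv1', h1v, huv1⟩ := hvn
  obtain ⟨N, hN⟩ := ProfiniteGrp.exist_openNormalSubgroup_sub_open_nhds_of_one
    (hu1.inter hv1') ⟨h1u, h1v⟩
  refine ⟨N.toSubgroup, N.isNormal', N.isOpen', ?_⟩
  intro g h n hn m hm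
  have h2 : ((g, h), (n, m)) ∈ W := huv ⟨hu (Set.mem_univ _), huv1 ⟨(hN hn).1, (hN hm).2⟩⟩
  exact h2

/-- The key point: a cocycle with vanishing invariant is a coboundary. -/
theorem cobound (hG : IsG G x y z) (c : G × G → ZMod 2) (hc : c ∈ Z2 2 G)
    (h0 : lam x y z c = 0) : c ∈ B2 2 G := by
  have := hG.proP.topGroup
  have := hG.proP.compact
  have := hG.proP.hausdorff
  have := hG.proP.disconnected
  obtain ⟨N, hN, hNo, hNc⟩ := exists_normal hG.proP c hc.1
  obtain ⟨k, hk⟩ := hG.proP.index N hN hNo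
  have : Finite (G ⧸ N) := by
    have h1 : N.index ≠ 0 := by rw [hk]; positivity
    have : N.FiniteIndex := ⟨h1⟩
    exact Subgroup.finite_quotient_of_finiteIndex
  let cb : G ⧸ N → G ⧸ N → ZMod 2 := fun q r => c (q.out, r.out)
  have hcb : ∀ g h : G, cb g h = c (g, h) := by
    intro g h
    obtain ⟨n, hn⟩ := QuotientGroup.mk_out_eq_mul N g
    obtain ⟨m, hm⟩ := QuotientGroup.mk_out_eq_mul N h
    change c ((g : G ⧸ N).out, (h : G ⧸ N).out) = _
    rw [hn, hm]
    exact hNc g h n n.2 m m.2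
  have hcoc : ∀ q r t : G ⧸ N, cb r t + cb q (r * t) = cb (q * r) t + cb q r := by
    intro q r t
    induction q using QuotientGroup.induction_on with | _ q => ?_
    induction r using QuotientGroup.induction_on with | _ r => ?_
    induction t using QuotientGroup.induction_on with | _ t => ?_
    rw [← QuotientGroup.mk_mul, ← QuotientGroup.mk_mul, hcb, hcb, hcb, hcb]
    exact hc.2 q r t
  let _ : Group (Ex (G ⧸ N)) := exGroup cb hcoc
  have hmul : ∀ a b : Ex (G ⧸ N), a * b = ⟨a.s + b.s + cb a.g b.g, a.g * b.g⟩ := fun a b => rfl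
  have e : Ex (G ⧸ N) ≃ ZMod 2 × (G ⧸ N) :=
    ⟨fun a => (a.s, a.g), fun p => ⟨p.1, p.2⟩, fun a => rfl, fun p => rfl⟩
  have : Finite (Ex (G ⧸ N)) := Finite.of_equiv _ e.symm
  have hcard : Nat.card (Ex (G ⧸ N)) = 2 ^ (k + 1) := by
    rw [Nat.card_congr e, Nat.card_prod, Nat.card_zmod, ← Subgroup.index_eq_card, hk]
    ring
  have hrelq : ∀ (g h : G), (⟨0, g⟩ : Ex (G ⧸ N)) * ⟨0, h⟩ = ⟨c (g, h), ((g * h : G) : G ⧸ N)⟩ := by
    intro g h
    rw [hmul, hcb]
    simp
  have hrelm : ∀ (g h : G) (s : ZMod 2), (⟨0, g⟩ : Ex (G ⧸ N)) * ⟨s, h⟩ =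
      ⟨s + c (g, h), ((g * h : G) : G ⧸ N)⟩ := by
    intro g h s
    rw [hmul, hcb]
    simp
  have hr : rel (⟨0, x⟩ : Ex (G ⧸ N)) ⟨0, y⟩ ⟨0, z⟩ = 1 := by
    rw [rel_iff, hrelm, hrelm, hrelm, hrelm, hrelm, hrelm]
    refine Ex.ext' ?_ ?_
    · change _ = (0 : ZMod 2)
      unfold lam at h0
      linear_combination h0
    · change (_ : G ⧸ N) = z
      rw [(rel_iff x y z).1 hG.rel_eq]
  obtain ⟨f, hf, hfx, hfy, hfz⟩ := hG.up (Ex (G ⧸ N)) (IsPGroup.of_card hcard) _ _ _ hr
  let pr : Ex (G ⧸ N) →* G ⧸ N :=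
    { toFun := fun a => a.g
      map_one' := rfl
      map_mul' := fun a b => rfl }
  have hpr : pr.comp f = QuotientGroup.mk' N := by
    refine hom_ext hG _ _ ?_ ?_ ?_ ?_ ?_
    · refine Subgroup.isOpen_mono (H₁ := f.ker) ?_ hf
      intro g hg
      have : f g = 1 := hg
      change pr (f g) = 1
      rw [this, map_one]
    · rw [QuotientGroup.ker_mk']
      exact hNo
    · change (f x).g = x
      rw [hfx]
    · change (f y).g = y
      rw [hfy]
    · change (f z).g = z
      rw [hfz]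
  have hg : ∀ g : G, (f g).g = g := fun g => DFunLike.congr_fun hpr g
  refine ⟨fun g => (f g).s, (locConst f hf).comp (fun a => a.s), ?_⟩
  intro g h
  have h1 : f (g * h) = f g * f h := map_mul f g h
  rw [hmul] at h1
  have h2 : (f (g * h)).s = (f g).s + (f h).s + cb (f g).g (f h).g := by rw [h1]
  rw [hg, hg, hcb] at h2
  have h3 : (2 : ZMod 2) = 0 := by decide
  change c (g, h) = (f g).s + (f h).s - (f (g * h)).s
  rw [h2]
  linear_combination c (g, h) * h3

end cocycle

section main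

variable {G : Type} [Group G] [TopologicalSpace G] {x y z : G}

/-- The homomorphism given by an element of `H1`. -/
def toHom (f : H1 2 G) : G →* Multiplicative (ZMod 2) where
  toFun g := Multiplicative.ofAdd (f.1 g)
  map_one' := by
    have h := f.2.2 1 1
    rw [mul_one] at h
    have h0 : f.1 1 = 0 := by linear_combination -h
    rw [h0]
    rfl
  map_mul' g h := by rw [f.2.2 g h]; rfl

theorem toHom_open (f : H1 2 G) : IsOpen ((toHom f).ker : Set G) := by
  have h : ((toHom f).ker : Set G) = f.1 ⁻¹' {0} := by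
    ext g
    change Multiplicative.ofAdd (f.1 g) = 1 ↔ f.1 g = 0
    exact Iff.rfl
  rw [h]
  exact f.2.1 {0}

theorem H1_ext (hG : IsG G x y z) (f k : H1 2 G) (hx : f.1 x = k.1 x) (hy : f.1 y = k.1 y)
    (hz : f.1 z = k.1 z) : f = k := by
  have h := hom_ext hG (toHom f) (toHom k) (toHom_open f) (toHom_open k)
    (congrArg Multiplicative.ofAdd hx) (congrArg Multiplicative.ofAdd hy)
    (congrArg Multiplicative.ofAdd hz)
  apply Subtype.ext
  funext g
  exact congrArg Multiplicative.toAdd (DFunLike.congr_fun h g)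

theorem H1_exists (hG : IsG G x y z) (a b c : ZMod 2) :
    ∃ f : H1 2 G, f.1 x = a ∧ f.1 y = b ∧ f.1 z = c := by
  have := hG.proP.topGroup
  have hp : IsPGroup 2 (Multiplicative (ZMod 2)) :=
    IsPGroup.of_card (n := 1) (by rw [Nat.card_eq_fintype_card]; rfl)
  have hr : rel (Multiplicative.ofAdd a) (Multiplicative.ofAdd b) (Multiplicative.ofAdd c) = 1 := by
    revert a b c
    unfold rel
    decide
  obtain ⟨f, hf, hfx, hfy, hfz⟩ := hG.up _ hp _ _ _ hr
  refine ⟨⟨fun g => Multiplicative.toAdd (f g), (locConst f hf).comp Multiplicative.toAdd,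
    fun g h => ?_⟩, ?_, ?_, ?_⟩
  · change Multiplicative.toAdd (f (g * h)) = Multiplicative.toAdd (f g) + Multiplicative.toAdd (f h)
    rw [map_mul]
    rfl
  · change Multiplicative.toAdd (f x) = a
    rw [hfx]; rfl
  · change Multiplicative.toAdd (f y) = b
    rw [hfy]; rfl
  · change Multiplicative.toAdd (f z) = c
    rw [hfz]; rfl

/-- The values at the generators. -/
def evL (x y z : G) : H1 2 G →ₗ[ZMod 2] (Fin 3 → ZMod 2) where
  toFun f := ![f.1 x, f.1 y, f.1 z]
  map_add' f k := by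
    ext i; fin_cases i <;> rfl
  map_smul' a f := by
    ext i; fin_cases i <;> rfl

theorem finrank_H1 (hG : IsG G x y z) : Module.finrank (ZMod 2) (H1 2 G) = 3 := by
  have hb : Function.Bijective (evL x y z) := by
    constructor
    · intro f k h
      exact H1_ext hG f k (congrFun h 0) (congrFun h 1) (congrFun h 2)
    · intro v
      obtain ⟨f, h1, h2, h3⟩ := H1_exists hG (v 0) (v 1) (v 2)
      refine ⟨f, ?_⟩
      ext i
      fin_cases i
      · exact h1
      · exact h2
      · exact h3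
  rw [(LinearEquiv.ofBijective (evL x y z) hb).finrank_eq]
  simp

/-- The invariant as a linear map. -/
def lamL (x y z : G) : Z2 2 G →ₗ[ZMod 2] ZMod 2 where
  toFun c := lam x y z c.1
  map_add' c d := by
    unfold lam
    change (c.1 _ + d.1 _) + (c.1 _ + d.1 _) + (c.1 _ + d.1 _) + (c.1 _ + d.1 _) +
      (c.1 _ + d.1 _) + (c.1 _ + d.1 _) = _
    ring
  map_smul' a c := by
    unfold lam
    change (a * c.1 _) + (a * c.1 _) + (a * c.1 _) + (a * c.1 _) +
      (a * c.1 _) + (a * c.1 _) = a * _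
    ring

theorem lam_B2 (hG : IsG G x y z) (c : G × G → ZMod 2) (hc : c ∈ B2 2 G) : lam x y z c = 0 := by
  obtain ⟨b, hb, hb'⟩ := hc
  have h := (rel_iff x y z).1 hG.rel_eq
  unfold lam
  rw [hb', hb', hb', hb', hb', hb', h]
  have h2 : (2 : ZMod 2) = 0 := by decide
  linear_combination (b x + 2 * b y) * h2

theorem lam_cup (f k : H1 2 G) : lam x y z (cup f k).1 =
    f.1 x * k.1 x + f.1 y * k.1 z + f.1 z * k.1 y := by
  have h2 : (2 : ZMod 2) = 0 := by decide
  unfold lam cup
  simp only [k.2.2]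
  linear_combination (f.1 y * k.1 x + 3 * f.1 y * k.1 y + f.1 z * k.1 x + f.1 z * k.1 y +
    3 * f.1 x * k.1 y) * h2

theorem mem_iff (hG : IsG G x y z) (c : Z2 2 G) :
    c ∈ (B2 2 G).comap (Z2 2 G).subtype ↔ lamL x y z c = 0 :=
  ⟨fun h => lam_B2 hG c.1 h, fun h => cobound hG c.1 c.2 h⟩

theorem cupClass_eq_zero (hG : IsG G x y z) (f k : H1 2 G) : cupClass f k = 0 ↔
    f.1 x * k.1 x + f.1 y * k.1 z + f.1 z * k.1 y = 0 := by
  unfold cupClass
  rw [Submodule.Quotient.mk_eq_zero, mem_iff hG, ← lam_cup]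
  exact Iff.rfl

theorem finrank_H2 (hG : IsG G x y z) : Module.finrank (ZMod 2) (H2 2 G) = 1 := by
  have hk : (B2 2 G).comap (Z2 2 G).subtype = LinearMap.ker (lamL x y z) := by
    ext c
    rw [mem_iff hG, LinearMap.mem_ker]
  have hs : LinearMap.range (lamL x y z) = ⊤ := by
    rw [LinearMap.range_eq_top]
    obtain ⟨f, h1, h2, h3⟩ := H1_exists hG 1 0 0
    have h : lamL x y z (cup f f) = 1 := by
      change lam x y z (cup f f).1 = 1
      rw [lam_cup, h1, h2, h3]
      decide
    intro a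
    refine ⟨a • cup f f, ?_⟩
    rw [map_smul, h, smul_eq_mul, mul_one]
  have e : H2 2 G ≃ₗ[ZMod 2] ZMod 2 :=
    (Submodule.quotEquivOfEq _ _ hk).trans
      (((lamL x y z).quotKerEquivRange).trans ((LinearEquiv.ofEq _ _ hs).trans Submodule.topEquiv))
  rw [e.finrank_eq]
  exact Module.finrank_self _

end main

end DEMUaux

open DEMUaux in
/-- Module DEMU. -/
theorem demu : DEMUStmt := by
  intro G _ _ x y z hG
  refine ⟨⟨hG.proP, ?_, finrank_H2 hG, ?_, ?_⟩, finrank_H1 hG⟩
  · classical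
    refine ⟨{x, y, z}, ?_⟩
    have h := hG.dense
    simpa using h
  · intro f hf
    have h1 := hf
    simp only [cupClass_eq_zero hG] at h1
    obtain ⟨k₁, a1, a2, a3⟩ := H1_exists hG 1 0 0
    obtain ⟨k₂, b1, b2, b3⟩ := H1_exists hG 0 1 0
    obtain ⟨k₃, c1, c2, c3⟩ := H1_exists hG 0 0 1
    have e1 := h1 k₁
    have e2 := h1 k₂
    have e3 := h1 k₃
    rw [a1, a2, a3] at e1
    rw [b1, b2, b3] at e2
    rw [c1, c2, c3] at e3
    refine H1_ext hG f 0 ?_ ?_ ?_
    · change f.1 x = 0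
      linear_combination e1
    · change f.1 y = 0
      linear_combination e3
    · change f.1 z = 0
      linear_combination e2
  · intro f hf
    have h1 := hf
    simp only [cupClass_eq_zero hG] at h1
    obtain ⟨k₁, a1, a2, a3⟩ := H1_exists hG 1 0 0
    obtain ⟨k₂, b1, b2, b3⟩ := H1_exists hG 0 1 0
    obtain ⟨k₃, c1, c2, c3⟩ := H1_exists hG 0 0 1
    have e1 := h1 k₁
    have e2 := h1 k₂
    have e3 := h1 k₃
    rw [a1, a2, a3] at e1
    rw [b1, b2, b3] at e2
    rw [c1, c2, c3] at e3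
    refine H1_ext hG f 0 ?_ ?_ ?_
    · change f.1 x = 0
      linear_combination e1
    · change f.1 y = 0
      linear_combination e3
    · change f.1 z = 0
      linear_combination e2

end Pool.Agent.H5.Dem
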